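import Mathlib

set_option autoImplicit false

/-!
# A real analytic nonexpansive map of `ℓ_∞^3` whose fixed point set is not smooth at the origin

The map is `f (x, y, z) = (x, y, z - (θ (z - x) + θ (z - y) + θ z) / 4)` with
`θ t = t ^ 3 / (1 + t ^ 2)`.
-/

namespace Pool.Agent.R272.ConeFix

open Filter Topology

/-- the auxiliary function -/
noncomputable def θ (t : ℝ) : ℝ := t ^ 3 / (1 + t ^ 2)

lemma θ_sub (a b : ℝ) : θ a - θ b =
    (a - b) * ((a ^ 2 + a * b + b ^ 2 + a ^ 2 * b ^ 2) / ((1 + a ^ 2) * (1 + b ^ 2))) := by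
  unfold θ
  have h1 : (1 + a ^ 2) ≠ 0 := by positivity
  have h2 : (1 + b ^ 2) ≠ 0 := by positivity
  field_simp
  ring

lemma slope_nonneg (a b : ℝ) :
    0 ≤ (a ^ 2 + a * b + b ^ 2 + a ^ 2 * b ^ 2) / ((1 + a ^ 2) * (1 + b ^ 2)) := by
  apply div_nonneg _ (by positivity)
  nlinarith [sq_nonneg (a + b), sq_nonneg a, sq_nonneg b, sq_nonneg (a * b)]

lemma slope_le (a b : ℝ) :
    (a ^ 2 + a * b + b ^ 2 + a ^ 2 * b ^ 2) / ((1 + a ^ 2) * (1 + b ^ 2)) ≤ 4 / 3 := by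
  rw [div_le_iff₀ (by positivity)]
  nlinarith [sq_nonneg (a - b), sq_nonneg a, sq_nonneg b, sq_nonneg (a * b), sq_nonneg (a * b - 1)]

lemma θ_slope (a b : ℝ) : ∃ α : ℝ, 0 ≤ α ∧ α ≤ 4 / 3 ∧ θ a - θ b = α * (a - b) :=
  ⟨_, slope_nonneg a b, slope_le a b, by rw [θ_sub]; ring⟩

lemma continuous_θ : Continuous θ := by
  unfold θ
  refine Continuous.div (by fun_prop) (by fun_prop) fun t => ?_
  positivity

lemma θ_pos {t : ℝ} (ht : 0 < t) : 0 < θ t := by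
  unfold θ
  positivity

/-- the function whose zero set is the fixed point set -/
noncomputable def G (x y z : ℝ) : ℝ := θ (z - x) + θ (z - y) + θ z

/-- the map -/
noncomputable def f (p : Fin 3 → ℝ) : Fin 3 → ℝ :=
  ![p 0, p 1, p 2 - G (p 0) (p 1) (p 2) / 4]

lemma f_zero (p : Fin 3 → ℝ) : f p 0 = p 0 := rfl
lemma f_one (p : Fin 3 → ℝ) : f p 1 = p 1 := rfl
lemma f_two (p : Fin 3 → ℝ) : f p 2 = p 2 - G (p 0) (p 1) (p 2) / 4 := rfl

lemma fix_iff (p : Fin 3 → ℝ) : f p = p ↔ G (p 0) (p 1) (p 2) = 0 := by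
  constructor
  · intro h
    have := congrFun h 2
    rw [f_two] at this
    linarith
  · intro h
    funext i
    fin_cases i
    · rfl
    · rfl
    · show f p 2 = p 2
      rw [f_two, h]; ring

lemma nonexpansive (p q : Fin 3 → ℝ) : ‖f p - f q‖ ≤ ‖p - q‖ := by
  have h0 : |p 0 - q 0| ≤ ‖p - q‖ := norm_le_pi_norm (p - q) 0
  have h1 : |p 1 - q 1| ≤ ‖p - q‖ := norm_le_pi_norm (p - q) 1
  have h2 : |p 2 - q 2| ≤ ‖p - q‖ := norm_le_pi_norm (p - q) 2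
  rw [pi_norm_le_iff_of_nonneg (norm_nonneg _)]
  intro i
  fin_cases i
  · exact h0
  · exact h1
  · show |f p 2 - f q 2| ≤ ‖p - q‖
    rw [f_two, f_two]
    unfold G
    obtain ⟨α, ha0, ha1, ha⟩ := θ_slope (p 2 - p 0) (q 2 - q 0)
    obtain ⟨β, hb0, hb1, hb⟩ := θ_slope (p 2 - p 1) (q 2 - q 1)
    obtain ⟨γ, hc0, hc1, hc⟩ := θ_slope (p 2) (q 2)
    set N := ‖p - q‖
    have e : p 2 - (θ (p 2 - p 0) + θ (p 2 - p 1) + θ (p 2)) / 4
        - (q 2 - (θ (q 2 - q 0) + θ (q 2 - q 1) + θ (q 2)) / 4)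
        = (1 - (α + β + γ) / 4) * (p 2 - q 2) + α / 4 * (p 0 - q 0) + β / 4 * (p 1 - q 1) := by
      linear_combination (-1 / 4) * ha + (-1 / 4) * hb + (-1 / 4) * hc
    rw [e]
    have hk : 0 ≤ 1 - (α + β + γ) / 4 := by linarith
    have hN : 0 ≤ N := norm_nonneg _
    calc |(1 - (α + β + γ) / 4) * (p 2 - q 2) + α / 4 * (p 0 - q 0) + β / 4 * (p 1 - q 1)|
        ≤ |(1 - (α + β + γ) / 4) * (p 2 - q 2)| + |α / 4 * (p 0 - q 0)| + |β / 4 * (p 1 - q 1)| :=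
          abs_add_three _ _ _
      _ = (1 - (α + β + γ) / 4) * |p 2 - q 2| + α / 4 * |p 0 - q 0| + β / 4 * |p 1 - q 1| := by
          rw [abs_mul, abs_mul, abs_mul, abs_of_nonneg hk, abs_of_nonneg (by positivity : 0 ≤ α / 4),
            abs_of_nonneg (by positivity : 0 ≤ β / 4)]
      _ ≤ (1 - (α + β + γ) / 4) * N + α / 4 * N + β / 4 * N := by gcongr
      _ = (1 - γ / 4) * N := by ring
      _ ≤ N := by nlinarith

lemma analytic_θ : AnalyticOnNhd ℝ θ Set.univ := by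
  intro t _
  unfold θ
  refine AnalyticAt.div (by fun_prop) (by fun_prop) ?_
  positivity

lemma analytic : AnalyticOnNhd ℝ f Set.univ := by
  intro p _
  have hc : ∀ i : Fin 3, AnalyticAt ℝ (fun q : Fin 3 → ℝ => q i) p := fun i =>
    (ContinuousLinearMap.proj (R := ℝ) (φ := fun _ : Fin 3 => ℝ) i).analyticAt p
  have hθ : ∀ g : (Fin 3 → ℝ) → ℝ, AnalyticAt ℝ g p → AnalyticAt ℝ (fun q => θ (g q)) p :=
    fun g hg => (analytic_θ (g p) (Set.mem_univ _)).comp hg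
  rw [analyticAt_pi_iff]
  intro i
  fin_cases i
  · exact hc 0
  · exact hc 1
  · show AnalyticAt ℝ (fun q : Fin 3 → ℝ => q 2 - (θ (q 2 - q 0) + θ (q 2 - q 1) + θ (q 2)) / 4) p
    have h1 := hθ _ ((hc 2).sub (hc 0))
    have h2 := hθ _ ((hc 2).sub (hc 1))
    have h3 := hθ _ (hc 2)
    exact (hc 2).sub (((h1.add h2).add h3).div analyticAt_const (by norm_num))

/-- points of the fixed point set over `(s, 0)` -/
lemma exists_a {s : ℝ} (hs : 0 < s) (hs1 : s ≤ 1) :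
    ∃ a : ℝ, 2 / 5 ≤ a ∧ a ≤ 1 / 2 ∧ G s 0 (a * s) = 0 ∧ G 0 s (a * s) = 0 := by
  have hcont : ContinuousOn (fun a : ℝ => G s 0 (a * s)) (Set.Icc (2 / 5) (1 / 2)) := by
    unfold G
    have := continuous_θ
    fun_prop
  have hs2 : s ^ 2 ≤ 1 := by nlinarith
  have hs3 : 0 < s ^ 3 := by positivity
  have h1 : G s 0 (2 / 5 * s) ≤ 0 := by
    unfold G θ
    have e : (2 / 5 * s - s) ^ 3 / (1 + (2 / 5 * s - s) ^ 2) + (2 / 5 * s - 0) ^ 3 /
        (1 + (2 / 5 * s - 0) ^ 2) + (2 / 5 * s) ^ 3 / (1 + (2 / 5 * s) ^ 2)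
        = s ^ 3 * (2 * (8 / 125) / (1 + 4 / 25 * s ^ 2) - 27 / 125 / (1 + 9 / 25 * s ^ 2)) := by
      have h1 : (1 + 4 / 25 * s ^ 2) ≠ 0 := by positivity
      have h2 : (1 + 9 / 25 * s ^ 2) ≠ 0 := by positivity
      have h3 : 1 + (2 / 5 * s - s) ^ 2 = 1 + 9 / 25 * s ^ 2 := by ring
      have h4 : 1 + (2 / 5 * s - 0) ^ 2 = 1 + 4 / 25 * s ^ 2 := by ring
      have h5 : 1 + (2 / 5 * s) ^ 2 = 1 + 4 / 25 * s ^ 2 := by ring
      rw [h3, h4, h5]
      field_simp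
      ring
    rw [e]
    apply mul_nonpos_of_nonneg_of_nonpos hs3.le
    rw [sub_nonpos, div_le_div_iff₀ (by positivity) (by positivity)]
    nlinarith
  have h2 : 0 ≤ G s 0 (1 / 2 * s) := by
    unfold G θ
    have e : (1 / 2 * s - s) ^ 3 / (1 + (1 / 2 * s - s) ^ 2) + (1 / 2 * s - 0) ^ 3 /
        (1 + (1 / 2 * s - 0) ^ 2) + (1 / 2 * s) ^ 3 / (1 + (1 / 2 * s) ^ 2)
        = s ^ 3 * (1 / 8 / (1 + 1 / 4 * s ^ 2)) := by
      have h3 : 1 + (1 / 2 * s - s) ^ 2 = 1 + 1 / 4 * s ^ 2 := by ring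
      have h4 : 1 + (1 / 2 * s - 0) ^ 2 = 1 + 1 / 4 * s ^ 2 := by ring
      have h5 : 1 + (1 / 2 * s) ^ 2 = 1 + 1 / 4 * s ^ 2 := by ring
      rw [h3, h4, h5]
      field_simp
      ring
    rw [e]
    positivity
  obtain ⟨a, ha, ha'⟩ := intermediate_value_Icc (by norm_num : (2 / 5 : ℝ) ≤ 1 / 2) hcont ⟨h1, h2⟩
  refine ⟨a, ha.1, ha.2, ha', ?_⟩
  have ha'' : θ (a * s - s) + θ (a * s - 0) + θ (a * s) = 0 := ha'
  unfold G
  linarith

/-- points of the fixed point set over `(s, s)` -/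
lemma exists_b {s : ℝ} (hs : 0 < s) (hs1 : s ≤ 1) :
    ∃ b : ℝ, 1 / 2 ≤ b ∧ b ≤ 3 / 5 ∧ G s s (b * s) = 0 := by
  have hcont : ContinuousOn (fun a : ℝ => G s s (a * s)) (Set.Icc (1 / 2) (3 / 5)) := by
    unfold G
    have := continuous_θ
    fun_prop
  have hs2 : s ^ 2 ≤ 1 := by nlinarith
  have hs3 : 0 < s ^ 3 := by positivity
  have h1 : G s s (1 / 2 * s) ≤ 0 := by
    unfold G θ
    have e : (1 / 2 * s - s) ^ 3 / (1 + (1 / 2 * s - s) ^ 2) + (1 / 2 * s - s) ^ 3 /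
        (1 + (1 / 2 * s - s) ^ 2) + (1 / 2 * s) ^ 3 / (1 + (1 / 2 * s) ^ 2)
        = -(s ^ 3 * (1 / 8 / (1 + 1 / 4 * s ^ 2))) := by
      have h3 : 1 + (1 / 2 * s - s) ^ 2 = 1 + 1 / 4 * s ^ 2 := by ring
      have h5 : 1 + (1 / 2 * s) ^ 2 = 1 + 1 / 4 * s ^ 2 := by ring
      rw [h3, h5]
      field_simp
      ring
    rw [e]
    have : 0 ≤ s ^ 3 * (1 / 8 / (1 + 1 / 4 * s ^ 2)) := by positivity
    linarith
  have h2 : 0 ≤ G s s (3 / 5 * s) := by
    unfold G θ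
    have e : (3 / 5 * s - s) ^ 3 / (1 + (3 / 5 * s - s) ^ 2) + (3 / 5 * s - s) ^ 3 /
        (1 + (3 / 5 * s - s) ^ 2) + (3 / 5 * s) ^ 3 / (1 + (3 / 5 * s) ^ 2)
        = s ^ 3 * (27 / 125 / (1 + 9 / 25 * s ^ 2) - 2 * (8 / 125) / (1 + 4 / 25 * s ^ 2)) := by
      have h1 : (1 + 4 / 25 * s ^ 2) ≠ 0 := by positivity
      have h2 : (1 + 9 / 25 * s ^ 2) ≠ 0 := by positivity
      have h3 : 1 + (3 / 5 * s - s) ^ 2 = 1 + 4 / 25 * s ^ 2 := by ring
      have h4 : 1 + (3 / 5 * s) ^ 2 = 1 + 9 / 25 * s ^ 2 := by ring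
      rw [h3, h4]
      field_simp
      ring
    rw [e]
    apply mul_nonneg hs3.le
    rw [sub_nonneg, div_le_div_iff₀ (by positivity) (by positivity)]
    nlinarith
  obtain ⟨a, ha, ha'⟩ := intermediate_value_Icc (by norm_num : (1 / 2 : ℝ) ≤ 3 / 5) hcont ⟨h1, h2⟩
  exact ⟨a, ha.1, ha.2, ha'⟩

/-- A function differentiable at `0` which vanishes on the fixed points near `0` has derivative
`0` at `0`. -/
lemma fderiv_zero {g : (Fin 3 → ℝ) → ℝ} {l : (Fin 3 → ℝ) →L[ℝ] ℝ} (hg : HasFDerivAt g l 0)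
    (h0 : ∀ᶠ p in 𝓝 (0 : Fin 3 → ℝ), f p = p → g p = 0) : l = 0 := by
  have hg0 : g 0 = 0 := by
    apply h0.self_of_nhds
    rw [fix_iff]
    simp [G, θ]
  -- smallness of `l` on the fixed points
  have key : ∀ ε : ℝ, 0 < ε → ∃ δ : ℝ, 0 < δ ∧ ∀ p : Fin 3 → ℝ, ‖p‖ < δ → f p = p →
      |l p| ≤ ε * ‖p‖ := by
    intro ε hε
    have h1 := (hasFDerivAt_iff_isLittleO_nhds_zero.1 hg).def hε
    obtain ⟨δ, hδ, hδ'⟩ := Metric.eventually_nhds_iff.1 (h1.and h0)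
    refine ⟨δ, hδ, fun p hp hfp => ?_⟩
    obtain ⟨h2, h3⟩ := hδ' (y := p) (by rwa [dist_zero_right])
    rw [zero_add, hg0, h3 hfp] at h2
    simpa using h2
  have hl : ∀ p : Fin 3 → ℝ, l p = p 0 * l (Pi.single 0 1) + p 1 * l (Pi.single 1 1)
      + p 2 * l (Pi.single 2 1) := by
    intro p
    have : p = p 0 • Pi.single 0 1 + p 1 • Pi.single 1 1 + p 2 • Pi.single 2 1 := by
      funext i
      fin_cases i <;> simp
    conv_lhs => rw [this]
    rw [map_add, map_add, map_smul, map_smul, map_smul]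
    rfl
  set A := l (Pi.single 0 1) with hA
  set B := l (Pi.single 1 1) with hB
  set C := l (Pi.single 2 1) with hC
  -- the basic estimate
  have est : ∀ ε : ℝ, 0 < ε → ∃ a b : ℝ, 2 / 5 ≤ a ∧ a ≤ 1 / 2 ∧ 1 / 2 ≤ b ∧ b ≤ 3 / 5 ∧
      |A + a * C| ≤ ε ∧ |B + a * C| ≤ ε ∧ |A + B + b * C| ≤ ε := by
    intro ε hε
    obtain ⟨δ, hδ, hδ'⟩ := key ε hε
    set s := min 1 (δ / 2) with hs
    have hs0 : 0 < s := by positivity
    have hs1 : s ≤ 1 := min_le_left _ _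
    have hsδ : s < δ := lt_of_le_of_lt (min_le_right _ _) (by linarith)
    obtain ⟨a, ha1, ha2, ha3, ha4⟩ := exists_a hs0 hs1
    obtain ⟨b, hb1, hb2, hb3⟩ := exists_b hs0 hs1
    have nrm : ∀ x y c : ℝ, |x| ≤ s → |y| ≤ s → 0 ≤ c → c ≤ 1 →
        ‖(![x, y, c * s] : Fin 3 → ℝ)‖ ≤ s := by
      intro x y c hx hy hc0 hc1
      rw [pi_norm_le_iff_of_nonneg hs0.le]
      intro i
      fin_cases i
      · exact hx
      · exact hy
      · show |c * s| ≤ s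
        rw [abs_of_nonneg (by positivity)]
        nlinarith
    have main : ∀ x y c : ℝ, |x| ≤ s → |y| ≤ s → 0 ≤ c → c ≤ 1 → G x y (c * s) = 0 →
        |x * A + y * B + c * s * C| ≤ ε * s := by
      intro x y c hx hy hc0 hc1 hG
      have h1 := nrm x y c hx hy hc0 hc1
      have h2 := hδ' ![x, y, c * s] (lt_of_le_of_lt h1 hsδ) ((fix_iff _).2 hG)
      rw [hl] at h2
      have h3 : ε * ‖(![x, y, c * s] : Fin 3 → ℝ)‖ ≤ ε * s := mul_le_mul_of_nonneg_left h1 hε.le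
      exact le_trans h2 h3
    have hss : |s| ≤ s := le_of_eq (abs_of_pos hs0)
    have h00 : |(0 : ℝ)| ≤ s := by rw [abs_zero]; exact hs0.le
    refine ⟨a, b, ha1, ha2, hb1, hb2, ?_, ?_, ?_⟩
    · have := main s 0 a hss h00 (by linarith) (by linarith) ha3
      have e : s * A + 0 * B + a * s * C = s * (A + a * C) := by ring
      rw [e, abs_mul, abs_of_pos hs0, mul_comm ε] at this
      exact le_of_mul_le_mul_left this hs0
    · have := main 0 s a h00 hss (by linarith) (by linarith) ha4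
      have e : 0 * A + s * B + a * s * C = s * (B + a * C) := by ring
      rw [e, abs_mul, abs_of_pos hs0, mul_comm ε] at this
      exact le_of_mul_le_mul_left this hs0
    · have := main s s b hss hss (by linarith) (by linarith) hb3
      have e : s * A + s * B + b * s * C = s * (A + B + b * C) := by ring
      rw [e, abs_mul, abs_of_pos hs0, mul_comm ε] at this
      exact le_of_mul_le_mul_left this hs0
  have hC0 : C = 0 := by
    by_contra hne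
    have hpos : 0 < |C| := abs_pos.2 hne
    obtain ⟨a, b, ha1, ha2, hb1, hb2, h1, h2, h3⟩ := est (|C| / 30) (by positivity)
    have h4 : |(2 * a - b) * C| ≤ |C| / 10 := by
      have e : (2 * a - b) * C = (A + a * C) + (B + a * C) - (A + B + b * C) := by ring
      rw [e]
      rw [abs_le] at h1 h2 h3 ⊢
      constructor <;> linarith [h1.1, h1.2, h2.1, h2.2, h3.1, h3.2]
    rw [abs_mul, abs_of_nonneg (by linarith)] at h4
    nlinarith
  have hA0 : A = 0 := by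
    by_contra hne
    have hpos : 0 < |A| := abs_pos.2 hne
    obtain ⟨a, b, -, -, -, -, h1, -, -⟩ := est (|A| / 2) (by positivity)
    rw [hC0, mul_zero, add_zero] at h1
    linarith
  have hB0 : B = 0 := by
    by_contra hne
    have hpos : 0 < |B| := abs_pos.2 hne
    obtain ⟨a, b, -, -, -, -, -, h1, -⟩ := est (|B| / 2) (by positivity)
    rw [hC0, mul_zero, add_zero] at h1
    linarith
  ext p
  simp [hl p, hA0, hB0, hC0]

/-- Points with `x, y < z` and `0 < z` are not fixed. -/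
lemma not_fix {p : Fin 3 → ℝ} (h0 : p 0 < p 2) (h1 : p 1 < p 2) (h2 : 0 < p 2) : f p ≠ p := by
  rw [Ne, fix_iff]
  unfold G
  have e1 := θ_pos (sub_pos.2 h0)
  have e2 := θ_pos (sub_pos.2 h1)
  have e3 := θ_pos h2
  linarith

lemma fix_origin : f 0 = 0 := by
  rw [fix_iff]
  simp [G, θ]

/-- the norm of `ℓ_∞^3` is the maximum of the absolute values of three functionals -/
lemma norm_isGreatest (x : Fin 3 → ℝ) :
    IsGreatest (Set.range fun i : Fin 3 => |LinearMap.proj (R := ℝ) (φ := fun _ : Fin 3 => ℝ) i x|)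
      ‖x‖ := by
  constructor
  · obtain ⟨i, hi⟩ := Finite.exists_max fun i => |x i|
    refine ⟨i, le_antisymm (norm_le_pi_norm x i) ?_⟩
    rw [pi_norm_le_iff_of_nonneg (abs_nonneg _)]
    exact hi
  · rintro _ ⟨i, rfl⟩
    exact norm_le_pi_norm x i

end Pool.Agent.R272.ConeFix
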