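import Mathlib
import Pool.Agent.Helper799.Cheeger
import Pool.Agent.Helper799.NonExp

set_option autoImplicit false

open Finset

namespace Pool.Agent.R272.NonA

/-- Expanders do not admit slowly varying finite sets with small supports. -/
theorem no_folner {V : Type} [Fintype V] [DecidableEq V] [Nonempty V]
    (R : V → V → Prop) [DecidableRel R]
    (hsymm : ∀ x y, R x y → R y x)
    (h : ℝ) (hh : 0 < h) (Δ : ℝ) (hΔ : 0 < Δ)
    (hdeg : ∀ x, ∑ y, (if R x y then (1:ℝ) else 0) ≤ Δ)
    (hexp : ∀ S : Finset V, 2 * S.card ≤ Fintype.card V →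
      h * S.card ≤ ∑ x ∈ S, ∑ y ∈ Sᶜ, (if R x y then (1:ℝ) else 0))
    {W : Type} [DecidableEq W] (A : V → Finset W) (hA : ∀ x, (A x).Nonempty) (ε : ℝ) (hε : 0 ≤ ε)
    (hedge : ∀ x y, R x y → (((A x) \ (A y)).card : ℝ) ≤ ε * ((A x ∩ A y).card : ℝ))
    (hfar : ∀ x, 2 * (Finset.univ.filter (fun y => ¬ Disjoint (A x) (A y))).card ≤ Fintype.card V) :
    1 ≤ (16 * Δ ^ 2 / h ^ 2) * (2 * ε) := by
  classical
  set N : ℝ := (Fintype.card V : ℝ) with hN
  have hN0 : 0 < N := by rw [hN]; exact_mod_cast Fintype.card_pos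
  let WW : Finset W := Finset.univ.biUnion A
  let f : W → V → ℝ := fun w x => if w ∈ A x then 1 / Real.sqrt (A x).card else 0
  have hcard : ∀ x, (0:ℝ) < (A x).card := fun x => by exact_mod_cast (hA x).card_pos
  have hsub : ∀ x, A x ⊆ WW := fun x => Finset.subset_biUnion_of_mem A (Finset.mem_univ x)
  -- inner products
  have hsq : ∀ x, ∑ w ∈ WW, f w x ^ 2 = 1 := by
    intro x
    have h1 : ∀ w ∈ WW, f w x ^ 2 = if w ∈ A x then 1 / ((A x).card : ℝ) else 0 := by
      intro w _
      simp only [f]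
      split_ifs
      · rw [div_pow, one_pow, Real.sq_sqrt (hcard x).le]
      · simp
    rw [Finset.sum_congr rfl h1, ← Finset.sum_filter, Finset.sum_const, nsmul_eq_mul]
    have : WW.filter (fun w => w ∈ A x) = A x := by
      ext w; simp only [Finset.mem_filter]
      exact ⟨fun h => h.2, fun h => ⟨hsub x h, h⟩⟩
    rw [this]
    have := hcard x
    field_simp
  have hinner : ∀ x y, ∑ w ∈ WW, f w x * f w y
      = ((A x ∩ A y).card : ℝ) / (Real.sqrt (A x).card * Real.sqrt (A y).card) := by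
    intro x y
    have h1 : ∀ w ∈ WW, f w x * f w y = if w ∈ A x ∩ A y then
        1 / (Real.sqrt (A x).card * Real.sqrt (A y).card) else 0 := by
      intro w _
      simp only [f, Finset.mem_inter]
      by_cases hx : w ∈ A x <;> by_cases hy : w ∈ A y <;> simp [hx, hy, mul_comm]
    rw [Finset.sum_congr rfl h1, ← Finset.sum_filter, Finset.sum_const, nsmul_eq_mul]
    have : WW.filter (fun w => w ∈ A x ∩ A y) = A x ∩ A y := by
      ext w; simp only [Finset.mem_filter]
      exact ⟨fun h => h.2, fun h => ⟨hsub x (Finset.mem_inter.1 h).1, h⟩⟩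
    rw [this]
    ring
  have hdiff : ∀ x y, ∑ w ∈ WW, (f w x - f w y) ^ 2
      = 2 - 2 * (((A x ∩ A y).card : ℝ) / (Real.sqrt (A x).card * Real.sqrt (A y).card)) := by
    intro x y
    have h1 : ∀ w, (f w x - f w y) ^ 2 = f w x ^ 2 + f w y ^ 2 - 2 * (f w x * f w y) := by
      intro w; ring
    simp_rw [h1]
    rw [Finset.sum_sub_distrib, Finset.sum_add_distrib, hsq, hsq, ← Finset.mul_sum, hinner]
    ring
  have hedge' : ∀ x y, R x y → ∑ w ∈ WW, (f w x - f w y) ^ 2 ≤ 2 * ε := by
    intro x y hxy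
    rw [hdiff]
    have h1 := hedge x y hxy
    have h2 := hedge y x (hsymm x y hxy)
    have e1 : ((A x).card : ℝ) = ((A x) \ (A y)).card + (A x ∩ A y).card := by
      have := Finset.card_sdiff_add_card_inter (A x) (A y)
      exact_mod_cast this.symm
    have e2 : ((A y).card : ℝ) = ((A y) \ (A x)).card + (A x ∩ A y).card := by
      have := Finset.card_sdiff_add_card_inter (A y) (A x)
      rw [Finset.inter_comm] at this
      exact_mod_cast this.symm
    rw [Finset.inter_comm] at h2
    set I : ℝ := ((A x ∩ A y).card : ℝ) with hI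
    have hI0 : 0 ≤ I := by positivity
    have h3 : ((A x).card : ℝ) ≤ (1 + ε) * I := by rw [e1]; linarith
    have h4 : ((A y).card : ℝ) ≤ (1 + ε) * I := by rw [e2]; linarith
    have hIpos : 0 < I := by
      by_contra hcon
      have : I = 0 := le_antisymm (not_lt.1 hcon) hI0
      rw [this] at h3
      have := hcard x
      linarith
    have h5 : Real.sqrt (A x).card * Real.sqrt (A y).card ≤ (1 + ε) * I := by
      have := Real.sqrt_le_sqrt h3
      have h' := Real.sqrt_le_sqrt h4
      calc Real.sqrt (A x).card * Real.sqrt (A y).card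
          ≤ Real.sqrt ((1 + ε) * I) * Real.sqrt ((1 + ε) * I) := by gcongr
        _ = (1 + ε) * I := Real.mul_self_sqrt (by positivity)
    have hpos : 0 < Real.sqrt (A x).card * Real.sqrt (A y).card :=
      mul_pos (Real.sqrt_pos.2 (hcard x)) (Real.sqrt_pos.2 (hcard y))
    have h6 : 1 / (1 + ε) ≤ I / (Real.sqrt (A x).card * Real.sqrt (A y).card) := by
      rw [div_le_div_iff₀ (by positivity) hpos]
      linarith
    have h7 : 1 - ε ≤ 1 / (1 + ε) := by
      rw [le_div_iff₀ (by positivity)]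
      nlinarith
    linarith
  have hfar' : ∀ x y, Disjoint (A x) (A y) → ∑ w ∈ WW, (f w x - f w y) ^ 2 = 2 := by
    intro x y hxy
    rw [hdiff, Finset.disjoint_iff_inter_eq_empty.1 hxy]
    simp
  -- Poincaré for each `w`
  set P := ∑ x : V, ∑ y, (if R x y then (1:ℝ) else 0) with hP
  set K := 16 * Δ ^ 2 / h ^ 2 with hK
  have hK0 : 0 ≤ K := by positivity
  have hpoin : ∀ w, (1 / N ^ 2) * ∑ x, ∑ y, (f w x - f w y) ^ 2
      ≤ K * ((∑ x, ∑ y, (if R x y then (f w x - f w y) ^ 2 else 0)) / P) := by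
    intro w
    exact Pool.Agent.Helper799.Cheeger.poincare R hsymm h hh Δ hΔ hdeg hexp (f w)
  have hsum := Finset.sum_le_sum (fun w (_ : w ∈ WW) => hpoin w)
  rw [← Finset.mul_sum, ← Finset.mul_sum, ← Finset.sum_div] at hsum
  have hL : ∑ w ∈ WW, ∑ x, ∑ y, (f w x - f w y) ^ 2
      = ∑ x, ∑ y, ∑ w ∈ WW, (f w x - f w y) ^ 2 := by
    rw [Finset.sum_comm]
    apply Finset.sum_congr rfl
    intro x _
    rw [Finset.sum_comm]
  have hR : ∑ w ∈ WW, ∑ x, ∑ y, (if R x y then (f w x - f w y) ^ 2 else 0)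
      = ∑ x, ∑ y, (if R x y then ∑ w ∈ WW, (f w x - f w y) ^ 2 else 0) := by
    rw [Finset.sum_comm]
    apply Finset.sum_congr rfl
    intro x _
    rw [Finset.sum_comm]
    apply Finset.sum_congr rfl
    intro y _
    split_ifs
    · rfl
    · simp
  rw [hL, hR] at hsum
  have hR2 : ∑ x, ∑ y, (if R x y then ∑ w ∈ WW, (f w x - f w y) ^ 2 else 0) ≤ (2 * ε) * P := by
    rw [hP, Finset.mul_sum]
    apply Finset.sum_le_sum
    intro x _
    rw [Finset.mul_sum]
    apply Finset.sum_le_sum
    intro y _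
    split_ifs with hxy
    · rw [mul_one]; exact hedge' x y hxy
    · simp
  have hP0 : 0 ≤ P := Finset.sum_nonneg fun x _ => Finset.sum_nonneg fun y _ => by
    split_ifs <;> norm_num
  have hR3 : (∑ x, ∑ y, (if R x y then ∑ w ∈ WW, (f w x - f w y) ^ 2 else 0)) / P ≤ 2 * ε := by
    rcases hP0.eq_or_lt with h0 | h0
    · rw [← h0, div_zero]; positivity
    · rw [div_le_iff₀ h0]; exact hR2
  have hL2 : N ^ 2 ≤ ∑ x, ∑ y, ∑ w ∈ WW, (f w x - f w y) ^ 2 := by
    have h1 : ∀ x : V, N ≤ ∑ y, ∑ w ∈ WW, (f w x - f w y) ^ 2 := by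
      intro x
      have hc : (Finset.univ.filter (fun y => ¬ Disjoint (A x) (A y))).card
          + (Finset.univ.filter (fun y => ¬ ¬ Disjoint (A x) (A y))).card = Fintype.card V := by
        rw [Finset.card_filter_add_card_filter_not, Finset.card_univ]
      have h2 := hfar x
      have h3 : Fintype.card V ≤ 2 * (Finset.univ.filter (fun y => ¬ ¬ Disjoint (A x) (A y))).card := by
        omega
      have h3' : N ≤ 2 * (Finset.univ.filter (fun y => ¬ ¬ Disjoint (A x) (A y))).card := by
        rw [hN]; exact_mod_cast h3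
      calc N ≤ 2 * (Finset.univ.filter (fun y => ¬ ¬ Disjoint (A x) (A y))).card := h3'
        _ = ∑ _y ∈ Finset.univ.filter (fun y => ¬ ¬ Disjoint (A x) (A y)), (2:ℝ) := by
            rw [Finset.sum_const, nsmul_eq_mul]; ring
        _ = ∑ y ∈ Finset.univ.filter (fun y => ¬ ¬ Disjoint (A x) (A y)),
            ∑ w ∈ WW, (f w x - f w y) ^ 2 := by
            apply Finset.sum_congr rfl
            intro y hy
            rw [Finset.mem_filter, not_not] at hy
            rw [hfar' x y hy.2]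
        _ ≤ _ := Finset.sum_le_sum_of_subset_of_nonneg (Finset.subset_univ _)
            (fun _ _ _ => Finset.sum_nonneg fun _ _ => sq_nonneg _)
    calc N ^ 2 = ∑ _x : V, N := by
          rw [Finset.sum_const, Finset.card_univ, nsmul_eq_mul]; ring
      _ ≤ _ := Finset.sum_le_sum fun x _ => h1 x
  calc (1:ℝ) = (1 / N ^ 2) * N ^ 2 := by field_simp
    _ ≤ (1 / N ^ 2) * ∑ x, ∑ y, ∑ w ∈ WW, (f w x - f w y) ^ 2 := by gcongr
    _ ≤ _ := hsum
    _ ≤ K * (2 * ε) := by gcongr

section space

variable (G : ∀ n : ℕ, SimpleGraph (Fin (n + 2)))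

/-- the coarse disjoint union of the graphs -/
structure Xs (G : ∀ n : ℕ, SimpleGraph (Fin (n + 2))) : Type where
  lev : ℕ
  pt : Fin (lev + 2)

variable {G}

/-- the distance of the coarse disjoint union -/
noncomputable def dd : Xs G → Xs G → ℕ := fun x y =>
  if h : x.lev = y.lev then (G y.lev).dist (h ▸ x.pt) y.pt else (x.lev + 2) + (y.lev + 2)

lemma dd_same (n : ℕ) (a b : Fin (n + 2)) :
    dd (⟨n, a⟩ : Xs G) ⟨n, b⟩ = (G n).dist a b := by
  simp [dd]

lemma dd_diff (n m : ℕ) (hnm : n ≠ m) (a : Fin (n + 2)) (b : Fin (m + 2)) :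
    dd (⟨n, a⟩ : Xs G) ⟨m, b⟩ = (n + 2) + (m + 2) := by
  simp [dd, hnm]

lemma dist_lt (hconn : ∀ n, (G n).Connected) (n : ℕ) (a b : Fin (n + 2)) :
    (G n).dist a b < n + 2 := by
  obtain ⟨p, hp, hlen⟩ := (hconn n).exists_path_of_dist a b
  have := hp.length_lt
  rw [Fintype.card_fin, hlen] at this
  exact this

lemma dd_self (x : Xs G) : dd x x = 0 := by
  obtain ⟨n, a⟩ := x
  rw [dd_same, SimpleGraph.dist_self]

lemma dd_comm (x y : Xs G) : dd x y = dd y x := by
  obtain ⟨n, a⟩ := x
  obtain ⟨m, b⟩ := y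
  by_cases h : n = m
  · subst h
    rw [dd_same, dd_same, SimpleGraph.dist_comm]
  · rw [dd_diff _ _ h, dd_diff _ _ (Ne.symm h)]; ring

lemma dd_triangle (hconn : ∀ n, (G n).Connected) (x y z : Xs G) :
    dd x z ≤ dd x y + dd y z := by
  obtain ⟨n, a⟩ := x
  obtain ⟨m, b⟩ := y
  obtain ⟨k, c⟩ := z
  by_cases h1 : n = k
  · subst h1
    by_cases h2 : n = m
    · subst h2
      rw [dd_same, dd_same, dd_same]
      exact (hconn n).dist_triangle
    · rw [dd_same, dd_diff _ _ h2, dd_diff _ _ (Ne.symm h2)]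
      have := dist_lt hconn n a c
      omega
  · by_cases h2 : n = m
    · subst h2
      rw [dd_diff _ _ h1, dd_diff _ _ h1]
      omega
    · by_cases h3 : m = k
      · subst h3
        rw [dd_diff _ _ h1, dd_diff _ _ h1]
        omega
      · rw [dd_diff _ _ h1, dd_diff _ _ h2, dd_diff _ _ h3]
        omega

lemma dd_eq_zero (hconn : ∀ n, (G n).Connected) (x y : Xs G) (h : dd x y = 0) : x = y := by
  obtain ⟨n, a⟩ := x
  obtain ⟨m, b⟩ := y
  by_cases h1 : n = m
  · subst h1
    rw [dd_same] at h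
    rw [((hconn n).dist_eq_zero_iff).1 h]
  · rw [dd_diff _ _ h1] at h
    omega

/-- the metric of the coarse disjoint union -/
@[reducible] noncomputable def metric (hconn : ∀ n, (G n).Connected) : MetricSpace (Xs G) where
  dist x y := (dd x y : ℝ)
  dist_self x := by simp [dd_self]
  dist_comm x y := by simp [dd_comm x y]
  dist_triangle x y z := by exact_mod_cast dd_triangle hconn x y z
  eq_of_dist_eq_zero := by
    intro x y h
    apply dd_eq_zero hconn
    exact_mod_cast h

/-- a finite set containing a ball -/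
lemma ball_bound (hconn : ∀ n, (G n).Connected)
    (hdeg : ∀ n x (A : Finset (Fin (n + 2))), (∀ y ∈ A, (G n).Adj x y) → A.card ≤ 48)
    (r : ℕ) (x : Xs G) : ∃ F : Finset (Xs G), (∀ y, dd x y ≤ r → y ∈ F) ∧
      F.card ≤ 49 ^ r + r * (r + 2) := by
  classical
  obtain ⟨n, a⟩ := x
  let F1 : Finset (Xs G) := (Finset.univ.filter (fun v => (G n).dist v a ≤ r)).image
    (fun v => (⟨n, v⟩ : Xs G))
  let F2 : Finset (Xs G) := (Finset.range r).biUnion
    (fun m => (Finset.univ : Finset (Fin (m + 2))).image (fun v => (⟨m, v⟩ : Xs G)))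
  refine ⟨F1 ∪ F2, ?_, ?_⟩
  · rintro ⟨m, b⟩ hy
    rw [Finset.mem_union]
    by_cases h1 : n = m
    · subst h1
      left
      rw [dd_same, SimpleGraph.dist_comm] at hy
      exact Finset.mem_image.2 ⟨b, Finset.mem_filter.2 ⟨Finset.mem_univ _, hy⟩, rfl⟩
    · right
      rw [dd_diff _ _ h1] at hy
      rw [Finset.mem_biUnion]
      exact ⟨m, Finset.mem_range.2 (by omega), Finset.mem_image.2 ⟨b, Finset.mem_univ _, rfl⟩⟩
  · refine (Finset.card_union_le _ _).trans (Nat.add_le_add ?_ ?_)
    · refine Finset.card_image_le.trans ?_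
      have := Pool.Agent.Helper799.NonExp.ball_card (G n) (hconn n) 48 (hdeg n) a r
      simpa using this
    · refine Finset.card_biUnion_le.trans ?_
      calc ∑ m ∈ Finset.range r, ((Finset.univ : Finset (Fin (m + 2))).image
              (fun v => (⟨m, v⟩ : Xs G))).card
          ≤ ∑ m ∈ Finset.range r, (r + 2) := by
            apply Finset.sum_le_sum
            intro m hm
            refine Finset.card_image_le.trans ?_
            rw [Finset.card_univ, Fintype.card_fin]
            have := Finset.mem_range.1 hm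
            omega
        _ = r * (r + 2) := by rw [Finset.sum_const, Finset.card_range, smul_eq_mul]

end space

/-- There is a bounded geometry metric space without property A. -/
theorem exists_nonA : ∃ (X : Type) (_ : MetricSpace X),
    (∀ R : ℝ, 0 < R → ∃ N : ℕ, ∀ x : X,
          (Metric.ball x R).Finite ∧ (Metric.ball x R).ncard ≤ N) ∧
    ¬ (∀ R : ℝ, 0 < R → ∀ ε : ℝ, 0 < ε →
        ∃ S : ℝ, ∃ A : X → Set (X × ℕ),
          (∀ x, (A x).Finite) ∧ (∀ x, (x, 0) ∈ A x) ∧
          (∀ x, ∀ w ∈ A x, dist w.1 x ≤ S) ∧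
          ∀ x y, dist x y < R →
            ((symmDiff (A x) (A y)).ncard : ℝ) < ε * ((A x ∩ A y).ncard : ℝ)) := by
  classical
  obtain ⟨G, hconn, hdeg, hexp, -⟩ := Pool.Agent.Helper799.NonExp.exists_space
  refine ⟨Xs G, metric hconn, ?_, ?_⟩
  · intro R hR
    obtain ⟨r, hr⟩ := exists_nat_ge R
    refine ⟨49 ^ r + r * (r + 2), ?_⟩
    intro x
    obtain ⟨F, hF, hcard⟩ := ball_bound hconn hdeg r x
    letI := metric hconn
    have hsub : Metric.ball x R ⊆ (F : Set (Xs G)) := by
      intro y hy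
      rw [Metric.mem_ball, dist_comm] at hy
      apply hF
      have h1 : (dd x y : ℝ) < R := hy
      have h2 : (dd x y : ℝ) < r := lt_of_lt_of_le h1 hr
      have h3 : dd x y < r := by exact_mod_cast h2
      exact h3.le
    refine ⟨F.finite_toSet.subset hsub, ?_⟩
    calc (Metric.ball x R).ncard ≤ (F : Set (Xs G)).ncard :=
          Set.ncard_le_ncard hsub F.finite_toSet
      _ = F.card := Set.ncard_coe_finset F
      _ ≤ _ := hcard
  · letI := metric hconn
    intro hA
    obtain ⟨S, A, hfin, hx0, hS, hRε⟩ := hA 2 (by norm_num) (1 / (16 * 48 ^ 2 * 4 * 4))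
      (by norm_num)
    obtain ⟨s, hs⟩ := exists_nat_ge S
    -- level
    set n : ℕ := 2 * 49 ^ (2 * s) + s with hn
    let A' : Fin (n + 2) → Finset (Xs G × ℕ) := fun v => (hfin ⟨n, v⟩).toFinset
    have hA'mem : ∀ v w, w ∈ A' v ↔ w ∈ A ⟨n, v⟩ := fun v w => by simp [A']
    have key := no_folner (V := Fin (n + 2)) (fun x y => (G n).Adj x y)
      (fun x y h => h.symm) (1 / 2) (by norm_num) 48 (by norm_num) ?_ ?_ A' ?_
      (1 / (16 * 48 ^ 2 * 4 * 4)) (by norm_num) ?_ ?_
    · norm_num at key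
    · -- degree
      intro x
      rw [← Finset.sum_filter, Finset.sum_const, nsmul_eq_mul, mul_one]
      have := hdeg n x (Finset.univ.filter (fun y => (G n).Adj x y)) (by
        intro y hy; exact (Finset.mem_filter.1 hy).2)
      exact_mod_cast this
    · -- expansion
      intro T hT
      rw [Fintype.card_fin] at hT
      obtain ⟨U, hdisj, hadj, hcardU⟩ := hexp n T hT
      refine hcardU.trans ?_
      have h1 : (U.card : ℝ) = ∑ y ∈ U, (1:ℝ) := by simp
      rw [h1, Finset.sum_comm]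
      calc ∑ y ∈ U, (1:ℝ) ≤ ∑ y ∈ U, ∑ x ∈ T, (if (G n).Adj x y then (1:ℝ) else 0) := by
            apply Finset.sum_le_sum
            intro y hy
            obtain ⟨x, hx, hxy⟩ := hadj y hy
            calc (1:ℝ) = (if (G n).Adj x y then (1:ℝ) else 0) := by rw [if_pos hxy]
              _ ≤ _ := Finset.single_le_sum (f := fun x => if (G n).Adj x y then (1:ℝ) else 0)
                  (fun x _ => by split_ifs <;> norm_num) hx
        _ ≤ _ := by
            apply Finset.sum_le_sum_of_subset_of_nonneg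
            · intro y hy
              rw [Finset.mem_compl]
              intro hyT
              exact Finset.disjoint_left.1 hdisj hyT hy
            · intro y _ _
              exact Finset.sum_nonneg fun x _ => by split_ifs <;> norm_num
    · intro v
      exact ⟨(⟨n, v⟩, 0), (hA'mem _ _).2 (hx0 _)⟩
    · intro v w hvw
      have hd : dist (⟨n, v⟩ : Xs G) ⟨n, w⟩ < 2 := by
        have h1 : dist (⟨n, v⟩ : Xs G) ⟨n, w⟩ = ((dd (⟨n, v⟩ : Xs G) ⟨n, w⟩ : ℕ) : ℝ) := rfl
        rw [h1, dd_same, (SimpleGraph.dist_eq_one_iff_adj).2 hvw]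
        norm_num
      have h2 := hRε _ _ hd
      have h3 : ((A' v \ A' w).card : ℝ) ≤ ((symmDiff (A ⟨n, v⟩) (A ⟨n, w⟩)).ncard : ℝ) := by
        have hfs : (symmDiff (A ⟨n, v⟩) (A ⟨n, w⟩)).Finite :=
          ((hfin _).union (hfin _)).subset (by
            intro z hz
            rcases hz with h | h
            · exact Or.inl h.1
            · exact Or.inr h.1)
        rw [← Set.ncard_coe_finset]
        have := Set.ncard_le_ncard (s := ((A' v \ A' w : Finset (Xs G × ℕ)) : Set (Xs G × ℕ)))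
          (t := symmDiff (A ⟨n, v⟩) (A ⟨n, w⟩)) (by
            intro z hz
            rw [Finset.mem_coe, Finset.mem_sdiff, hA'mem, hA'mem] at hz
            exact Or.inl hz) hfs
        exact_mod_cast this
      have h4 : ((A ⟨n, v⟩ ∩ A ⟨n, w⟩).ncard : ℝ) = ((A' v ∩ A' w).card : ℝ) := by
        rw [← Set.ncard_coe_finset]
        congr 2
        ext z
        rw [Finset.mem_coe, Finset.mem_inter, hA'mem, hA'mem]
        rfl
      rw [← h4]
      exact h3.trans h2.le
    · intro v
      rw [Fintype.card_fin]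
      have hsub : Finset.univ.filter (fun w => ¬ Disjoint (A' v) (A' w))
          ⊆ Finset.univ.filter (fun w => (G n).dist w v ≤ 2 * s) := by
        intro w hw
        rw [Finset.mem_filter] at hw ⊢
        refine ⟨Finset.mem_univ _, ?_⟩
        obtain ⟨z, hzv, hzw⟩ := Finset.not_disjoint_iff.1 hw.2
        have h1 := (hS _ _ ((hA'mem _ _).1 hzv)).trans hs
        have h2 := (hS _ _ ((hA'mem _ _).1 hzw)).trans hs
        have h3 : dist (⟨n, w⟩ : Xs G) ⟨n, v⟩ ≤ s + s := by
          calc dist (⟨n, w⟩ : Xs G) ⟨n, v⟩ ≤ dist (⟨n, w⟩ : Xs G) z.1 + dist z.1 ⟨n, v⟩ :=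
                dist_triangle _ _ _
            _ ≤ s + s := by rw [dist_comm (⟨n, w⟩ : Xs G) z.1]; exact add_le_add h2 h1
        have h4 : dist (⟨n, w⟩ : Xs G) ⟨n, v⟩ = ((dd (⟨n, w⟩ : Xs G) ⟨n, v⟩ : ℕ) : ℝ) := rfl
        rw [h4, dd_same] at h3
        have h5 : (G n).dist w v ≤ s + s := by exact_mod_cast h3
        omega
      have h1 := Finset.card_le_card hsub
      have h2 := Pool.Agent.Helper799.NonExp.ball_card (G n) (hconn n) 48 (hdeg n) v (2 * s)
      have h3 : (48 + 1) ^ (2 * s) = 49 ^ (2 * s) := by norm_num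
      omega

end Pool.Agent.R272.NonA
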