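import Mathlib

set_option autoImplicit false

open MeasureTheory Filter Topology Set
open scoped ENNReal

namespace Pool.Agent.R272.OnlP1

variable {X : Type*} [MeasurableSpace X] [MeasurableSingletonClass X] [Countable X]
variable {E : Type*} [NormedAddCommGroup E] [NormedSpace ℝ E]

lemma norm_add_disjoint {ν : Measure X} {f g : X → E} (hf : MemLp f 1 ν) (hg : MemLp g 1 ν)
    (hd : Disjoint (Function.support f) (Function.support g)) :
    ‖hf.toLp f + hg.toLp g‖ = ‖hf.toLp f‖ + ‖hg.toLp g‖ := by
  rw [← MemLp.toLp_add]
  rw [L1.norm_eq_integral_norm, L1.norm_eq_integral_norm, L1.norm_eq_integral_norm]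
  rw [← integral_add]
  · apply integral_congr_ae
    filter_upwards [MemLp.coeFn_toLp (hf.add hg), MemLp.coeFn_toLp hf, MemLp.coeFn_toLp hg]
      with x h1 h2 h3
    rw [h1, h2, h3]
    by_cases hx : x ∈ Function.support f
    · have hgx : g x = 0 := by
        by_contra hgx
        exact Set.disjoint_left.1 hd hx hgx
      simp [hgx]
    · have hfx : f x = 0 := by simpa using hx
      simp [hfx]
  · exact (L1.integrable_coeFn _).norm
  · exact (L1.integrable_coeFn _).norm

/-- an operator which is small on functions supported by single points is small. -/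
lemma norm_le_of_single {ν : Measure X} {F : Type*} [NormedAddCommGroup F] [NormedSpace ℝ F]
    (T : Lp E 1 ν →L[ℝ] F) (C : ℝ) (hC : 0 ≤ C)
    (h : ∀ ξ : Lp E 1 ν, (∃ x : X, ∀ᵐ z ∂ν, z ∉ ({x} : Set X) → ξ z = 0) → ‖T ξ‖ ≤ C * ‖ξ‖)
    (ξ : Lp E 1 ν) : ‖T ξ‖ ≤ C * ‖ξ‖ := by
  have hclosed : IsClosed {f : Lp E 1 ν | ‖T f‖ ≤ C * ‖f‖} :=
    isClosed_le (by fun_prop) (by fun_prop)
  refine Lp.induction (by simp) (fun f => ‖T f‖ ≤ C * ‖f‖) ?_ ?_ hclosed ξ
  · intro c s hs hμs
    -- first finite sets
    have hfin : ∀ (t : Finset X) (ht : ν (t : Set X) ≠ ∞),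
        ‖T (indicatorConstLp 1 t.measurableSet ht c)‖
          ≤ C * ‖indicatorConstLp 1 t.measurableSet ht c‖ := by
      intro t
      induction t using Finset.cons_induction with
      | empty =>
        intro ht
        have : indicatorConstLp 1 (∅ : Finset X).measurableSet ht c = 0 := by
          convert indicatorConstLp_empty (p := 1) (μ := ν) (c := c) using 2
          simp
        rw [this]; simp
      | cons a t ha ih =>
        intro ht
        have h1 : ν ({a} : Set X) ≠ ∞ :=
          ne_top_of_le_ne_top ht (measure_mono (by simp))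
        have h2 : ν (t : Set X) ≠ ∞ :=
          ne_top_of_le_ne_top ht (measure_mono (by simp))
        have hdisj : Disjoint ({a} : Set X) (t : Set X) := by simpa using ha
        have hsum : indicatorConstLp 1 (Finset.cons a t ha).measurableSet ht c
            = indicatorConstLp 1 (measurableSet_singleton a) h1 c
              + indicatorConstLp 1 t.measurableSet h2 c := by
          rw [← indicatorConstLp_disjoint_union (measurableSet_singleton a) t.measurableSet h1 h2
            hdisj c]
          congr 1
          simp [Set.singleton_union]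
        have hsing : ‖T (indicatorConstLp 1 (measurableSet_singleton a) h1 c)‖
            ≤ C * ‖indicatorConstLp 1 (measurableSet_singleton a) h1 c‖ := by
          apply h
          refine ⟨a, ?_⟩
          filter_upwards [indicatorConstLp_coeFn_notMem (p := 1) (hs := measurableSet_singleton a)
            (hμs := h1) (c := c)] with z hz
          exact hz
        rw [hsum, map_add]
        have hnorm : ‖indicatorConstLp 1 (measurableSet_singleton a) h1 c
              + indicatorConstLp 1 t.measurableSet h2 c‖
            = ‖indicatorConstLp 1 (measurableSet_singleton a) h1 c‖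
              + ‖indicatorConstLp 1 t.measurableSet h2 c‖ := by
          apply norm_add_disjoint
          refine Set.disjoint_left.2 ?_
          intro z hz1 hz2
          have hz1' : z ∈ ({a} : Set X) := by
            by_contra hcon
            rw [Function.mem_support, Set.indicator_of_notMem hcon] at hz1
            exact hz1 rfl
          have hz2' : z ∈ (t : Set X) := by
            by_contra hcon
            rw [Function.mem_support, Set.indicator_of_notMem hcon] at hz2
            exact hz2 rfl
          exact Set.disjoint_left.1 hdisj hz1' hz2'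
        rw [hnorm]
        calc _ ≤ _ := norm_add_le _ _
          _ ≤ _ := add_le_add hsing (ih h2)
          _ = _ := by ring
    -- exhaust `s` by finite sets
    obtain ⟨u, hu⟩ := Countable.exists_injective_nat X
    have hfs : ∀ n : ℕ, (s ∩ {x | u x < n}).Finite := by
      intro n
      apply Set.Finite.subset (s := {x | u x < n})
      · have : {x | u x < n} = u ⁻¹' (Set.Iio n) := rfl
        rw [this]
        exact (Set.finite_Iio n).preimage hu.injOn
      · exact Set.inter_subset_right
    have hmeas : ∀ n : ℕ, MeasurableSet (s ∩ {x | u x < n}) := fun n =>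
      (hfs n).measurableSet
    have hne : ∀ n : ℕ, ν (s ∩ {x | u x < n}) ≠ ∞ := fun n =>
      ne_top_of_le_ne_top hμs.ne (measure_mono Set.inter_subset_left)
    have hlim : Tendsto (fun n : ℕ => indicatorConstLp 1 (hmeas n) (hne n) c) atTop
        (𝓝 (indicatorConstLp 1 hs hμs.ne c)) := by
      apply tendsto_indicatorConstLp_set (by simp)
      have hsd : ∀ n : ℕ, symmDiff (s ∩ {x | u x < n}) s = s \ {x | u x < n} := by
        intro n
        ext x
        simp only [Set.mem_symmDiff, Set.mem_inter_iff, Set.mem_diff]
        tauto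
      simp_rw [hsd]
      have hempty : ν (⋂ n : ℕ, s \ {x | u x < n}) = 0 := by
        have : (⋂ n : ℕ, s \ {x | u x < n}) = ∅ := by
          ext x
          simp only [Set.mem_iInter, Set.mem_diff, Set.mem_empty_iff_false, iff_false, not_forall]
          refine ⟨u x + 1, ?_⟩
          intro hx
          exact hx.2 (Nat.lt_succ_self _)
        rw [this]; simp
      rw [← hempty]
      apply tendsto_measure_iInter_atTop
      · intro n
        exact (hs.diff ((Set.to_countable _).measurableSet)).nullMeasurableSet
      · intro m n hmn x hx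
        refine ⟨hx.1, ?_⟩
        intro hlt
        exact hx.2 (lt_of_lt_of_le hlt hmn)
      · exact ⟨0, ne_top_of_le_ne_top hμs.ne (measure_mono Set.diff_subset)⟩
    have hmem : ∀ n : ℕ, indicatorConstLp 1 (hmeas n) (hne n) c ∈
        {f : Lp E 1 ν | ‖T f‖ ≤ C * ‖f‖} := by
      intro n
      have := hfin (hfs n).toFinset (by
        rw [Set.Finite.coe_toFinset]; exact hne n)
      have heq : indicatorConstLp 1 (hmeas n) (hne n) c
          = indicatorConstLp 1 (hfs n).toFinset.measurableSet (by
            rw [Set.Finite.coe_toFinset]; exact hne n) c := by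
        congr 1
        simp
      rw [Set.mem_ofPred_eq, heq]
      exact this
    have := hclosed.mem_of_tendsto hlim (Eventually.of_forall hmem)
    exact this
  · intro f g hf hg hd hf' hg'
    rw [map_add, norm_add_disjoint hf hg hd]
    calc _ ≤ _ := norm_add_le _ _
      _ ≤ _ := add_le_add hf' hg'
      _ = _ := by ring

/-- The `1`-operator norm localization property always holds, with `c = 1/2`. -/
lemma exists_single {ν : Measure X} [Nontrivial E] (hν : ν ≠ 0) (hfin : ∀ x, ν {x} ≠ ∞)
    {F : Type*} [NormedAddCommGroup F] [NormedSpace ℝ F]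
    (T : Lp E 1 ν →L[ℝ] F) :
    ∃ ξ : Lp E 1 ν, ξ ≠ 0 ∧ (∃ x : X, ∀ᵐ z ∂ν, z ∉ ({x} : Set X) → ξ z = 0) ∧
      (1 / 2) * ‖T‖ * ‖ξ‖ ≤ ‖T ξ‖ := by
  by_contra hcon
  push Not at hcon
  have h1 : ∀ ξ : Lp E 1 ν, (∃ x : X, ∀ᵐ z ∂ν, z ∉ ({x} : Set X) → ξ z = 0) →
      ‖T ξ‖ ≤ (1 / 2) * ‖T‖ * ‖ξ‖ := by
    intro ξ hξ
    by_cases h0 : ξ = 0
    · rw [h0]; simp
    · exact (hcon ξ h0 hξ).le
  have h2 : ‖T‖ ≤ (1 / 2) * ‖T‖ :=
    T.opNorm_le_bound (by positivity) (norm_le_of_single T _ (by positivity) h1)
  have h3 : ‖T‖ = 0 := le_antisymm (by linarith [norm_nonneg T]) (norm_nonneg T)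
  -- some atom
  have hatom : ∃ x : X, ν {x} ≠ 0 := by
    by_contra hall
    push Not at hall
    apply hν
    rw [← Measure.measure_univ_eq_zero]
    have : (Set.univ : Set X) = ⋃ x : X, {x} := by ext x; simp
    rw [this]
    exact measure_iUnion_null hall
  obtain ⟨x, hx⟩ := hatom
  obtain ⟨c, hc⟩ := exists_ne (0 : E)
  set ξ : Lp E 1 ν := indicatorConstLp 1 (measurableSet_singleton x) (hfin x) c with hξ
  have hξ0 : ξ ≠ 0 := by
    rw [← norm_ne_zero_iff, hξ, norm_indicatorConstLp (by simp) (by simp)]
    have : 0 < ν.real {x} := by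
      rw [Measure.real, ENNReal.toReal_pos_iff]
      exact ⟨pos_iff_ne_zero.2 hx, lt_top_iff_ne_top.2 (hfin x)⟩
    have hc' : 0 < ‖c‖ := norm_pos_iff.2 hc
    positivity
  have := hcon ξ hξ0 ⟨x, by
    filter_upwards [indicatorConstLp_coeFn_notMem (p := 1) (hs := measurableSet_singleton x)
      (hμs := hfin x) (c := c)] with z hz
    exact hz⟩
  rw [h3] at this
  simp only [mul_zero, zero_mul] at this
  exact absurd this (not_lt.2 (norm_nonneg _))

end Pool.Agent.R272.OnlP1
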